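import Mathlib

set_option autoImplicit false

namespace Pool.Agent.Results.MP_b1d502_nt.NotFinitelyDetermined

/-- Distance from a real number to the nearest integer. -/
noncomputable def nd (x : ℝ) : ℝ := |x - (round x : ℝ)|

/-- A speed set: a `k`-tuple of pairwise distinct positive integers. -/
def IsSpeedSet {k : ℕ} (s : Fin k → ℕ) : Prop := (∀ i, 0 < s i) ∧ Function.Injective s

/-- The box `(0,1/2]^k`. -/
def box (k : ℕ) : Set (Fin k → ℝ) := {d | ∀ i, 0 < d i ∧ d i ≤ 1 / 2}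

/-- `A(s)`: the `d` in the box for which some time `t` has `‖s_i t‖ ≥ d_i` for all `i`. -/
def A {k : ℕ} (s : Fin k → ℕ) : Set (Fin k → ℝ) :=
  {d | d ∈ box k ∧ ∃ t : ℝ, ∀ i, d i ≤ nd ((s i : ℝ) * t)}

/-- The mixed loneliness parameter space. -/
def MLPS (k : ℕ) : Set (Fin k → ℝ) :=
  {d | d ∈ box k ∧ ∀ s : Fin k → ℕ, IsSpeedSet s → d ∈ A s}

/-- `MLPS_k` is determined by finitely many speed sets. -/
def FinitelyDetermined (k : ℕ) : Prop :=
  ∃ F : Set (Fin k → ℕ), F.Finite ∧ (∀ s ∈ F, IsSpeedSet s) ∧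
    MLPS k = {d | d ∈ box k ∧ ∀ s ∈ F, d ∈ A s}

lemma nd_le (x : ℝ) (z : ℤ) : nd x ≤ |x - z| := round_le x z

lemma nd_add_int (x : ℝ) (z : ℤ) : nd (x + z) = nd x := by
  apply le_antisymm
  · have := nd_le (x + z) (round x + z)
    push_cast at this
    rwa [add_sub_add_right_eq_sub] at this
  · have := nd_le x (round (x + z) - z)
    push_cast at this
    refine this.trans (le_of_eq ?_)
    unfold nd
    congr 1
    ring

lemma nd_neg (x : ℝ) : nd (-x) = nd x := by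
  apply le_antisymm
  · have := nd_le (-x) (-round x)
    push_cast at this
    refine this.trans (le_of_eq ?_)
    unfold nd
    rw [← abs_neg]
    congr 1
    ring
  · have := nd_le x (-round (-x))
    push_cast at this
    refine this.trans (le_of_eq ?_)
    unfold nd
    rw [← abs_neg]
    congr 1
    ring

lemma le_nd_iff (x c : ℝ) : c ≤ nd x ↔ ∀ z : ℤ, c ≤ |x - z| :=
  ⟨fun h z => h.trans (nd_le x z), fun h => h (round x)⟩

lemma nd_pos_of_irrational {x : ℝ} (h : Irrational x) : 0 < nd x := by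
  unfold nd
  rw [abs_pos]
  intro h0
  exact h ⟨(round x : ℚ), by push_cast; linarith⟩

/-- The time used for a speed set `s`: `t = (1/2-ε)/s₀`. -/
lemma time_first (ε : ℝ) (a : ℕ) (ha : 0 < a) (h0 : 0 < ε) (h1 : ε < 1 / 2) :
    1 / 2 - ε ≤ nd ((a : ℝ) * ((1 / 2 - ε) / a)) := by
  have ha' : (a : ℝ) ≠ 0 := by positivity
  rw [mul_div_cancel₀ _ ha', le_nd_iff]
  intro z
  rcases le_or_gt z 0 with hz | hz
  · have hz' : (z : ℝ) ≤ 0 := by exact_mod_cast hz
    rw [abs_of_nonneg (by linarith)]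
    linarith
  · have hz' : (1 : ℝ) ≤ z := by exact_mod_cast hz
    rw [abs_of_nonpos (by linarith)]
    linarith

lemma time_second (ε : ℝ) (N a b : ℕ) (ha : 0 < a) (hb : 0 < b) (haN : a ≤ N) (hbN : b ≤ N)
    (h0 : 0 < ε) (h1 : ε * (6 * N) ≤ 1) :
    2 * ε ≤ nd ((b : ℝ) * ((1 / 2 - ε) / a)) := by
  have ha' : (0 : ℝ) < a := by exact_mod_cast ha
  have hb' : (0 : ℝ) < b := by exact_mod_cast hb
  have haN' : (a : ℝ) ≤ N := by exact_mod_cast haN
  have hbN' : (b : ℝ) ≤ N := by exact_mod_cast hbN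
  have hea : ε * a ≤ 1 / 6 := by nlinarith
  have heb : ε * b ≤ 1 / 6 := by nlinarith
  rw [le_nd_iff]
  intro z
  -- multiply by 2a
  have key : 4 * ε * a ≤ |(b : ℝ) * (1 - 2 * ε) - 2 * a * z| := by
    rcases eq_or_ne ((b : ℤ) - 2 * a * z) 0 with h | h
    · have hr : (b : ℝ) = 2 * a * z := by
        have : (b : ℤ) = 2 * a * z := by linarith
        exact_mod_cast this
      have hz : (1 : ℝ) ≤ z := by
        have : 0 < z := by
          by_contra hcon
          push Not at hcon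
          have : (z : ℝ) ≤ 0 := by exact_mod_cast hcon
          nlinarith
        exact_mod_cast this
      have : (b : ℝ) * (1 - 2 * ε) - 2 * a * z = -(2 * ε * b) := by
        rw [← hr]; ring
      rw [this, abs_neg, abs_of_nonneg (by positivity)]
      have hb2 : 2 * (a : ℝ) ≤ b := by nlinarith
      nlinarith
    · have h1' : (1 : ℝ) ≤ |(b : ℝ) - 2 * a * z| := by
        have : (1 : ℤ) ≤ |(b : ℤ) - 2 * a * z| := Int.one_le_abs h
        exact_mod_cast this
      have h2 : |(b : ℝ) - 2 * a * z| ≤ |(b : ℝ) * (1 - 2 * ε) - 2 * a * z| + 2 * ε * b := by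
        have h3 := abs_add_le ((b : ℝ) * (1 - 2 * ε) - 2 * a * z) (2 * ε * b)
        have h4 : (b : ℝ) * (1 - 2 * ε) - 2 * a * z + 2 * ε * b = b - 2 * a * z := by ring
        rw [h4, abs_of_nonneg (by positivity : (0 : ℝ) ≤ 2 * ε * b)] at h3
        exact h3
      nlinarith
  have h5 : (b : ℝ) * ((1 / 2 - ε) / a) - z = ((b : ℝ) * (1 - 2 * ε) - 2 * a * z) / (2 * a) := by
    field_simp
  rw [h5, abs_div, abs_of_pos (by positivity : (0 : ℝ) < 2 * a), le_div_iff₀ (by positivity)]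
  nlinarith

lemma irr_time (ε : ℝ) (hε : Irrational ε) (a b : ℕ) (ha : 0 < a) (hb : 0 < b) :
    Irrational ((b : ℝ) * ((1 / 2 - ε) / a)) := by
  have h1 : Irrational ((1 / 2 : ℝ) - ε) := by
    have := hε.ratCast_sub (1 / 2)
    push_cast at this
    exact this
  have h2 : Irrational ((1 / 2 - ε) / (a : ℝ)) := h1.div_natCast (by omega)
  exact h2.natCast_mul (by omega)

/-- The times at which both runners of speeds `1,2` are far enough. -/
lemma forced_time (ε t : ℝ) (ht1 : 1 / 2 - ε ≤ nd (1 * t))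
    (ht2 : 2 * ε ≤ nd (2 * t)) (j : ℕ) : nd (((4 * j : ℕ) : ℝ) * t) = nd ((j : ℝ) * (4 * ε)) := by
  rw [one_mul] at ht1
  set z := round t with hz
  have hf : |t - z| ≤ 1 / 2 := abs_sub_round t
  have hf1 : 1 / 2 - ε ≤ |t - z| := ht1
  have hcase : t - z = 1 / 2 - ε ∨ t - z = -(1 / 2 - ε) := by
    rcases le_total 0 (t - z) with hpos | hneg
    · left
      rw [abs_of_nonneg hpos] at hf hf1
      have h3 := ht2.trans (nd_le (2 * t) (2 * z + 1))
      push_cast at h3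
      rw [abs_of_nonpos (by linarith)] at h3
      linarith
    · right
      rw [abs_of_nonpos hneg] at hf hf1
      have h3 := ht2.trans (nd_le (2 * t) (2 * z - 1))
      push_cast at h3
      rw [abs_of_nonneg (by linarith)] at h3
      linarith
  rcases hcase with h | h
  · have : ((4 * j : ℕ) : ℝ) * t = -((j : ℝ) * (4 * ε)) + ((4 * j * z + 2 * j : ℤ) : ℝ) := by
      have ht : t = z + (1 / 2 - ε) := by linarith
      rw [ht]; push_cast; ring
    rw [this, nd_add_int, nd_neg]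
  · have : ((4 * j : ℕ) : ℝ) * t = ((j : ℝ) * (4 * ε)) + ((4 * j * z - 2 * j : ℤ) : ℝ) := by
      have ht : t = z - (1 / 2 - ε) := by linarith
      rw [ht]; push_cast; ring
    rw [this, nd_add_int]

/-- The speed set `1, 2, x, x+1, x+2, …`. -/
def sp (k x : ℕ) : Fin k → ℕ := fun i => if i.1 = 0 then 1 else if i.1 = 1 then 2 else x + (i.1 - 2)

lemma sp_speed (k x : ℕ) (hx : 3 ≤ x) : IsSpeedSet (sp k x) := by
  constructor
  · intro i
    unfold sp
    split_ifs <;> omega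
  · intro i j hij
    unfold sp at hij
    apply Fin.ext
    split_ifs at hij <;> omega

/-- For every `k ≥ 3` the space `MLPS_k` is not determined by finitely many speed sets. -/
theorem result : ∀ k : ℕ, 3 ≤ k → ¬ FinitelyDetermined k := by
  intro k hk ⟨F, hFfin, hFs, hF⟩
  -- a bound on all the speeds occurring in F
  obtain ⟨N, hN⟩ : ∃ N : ℕ, ∀ s ∈ F, ∀ i, s i ≤ N := by
    have : (⋃ s ∈ F, Set.range s).Finite := hFfin.biUnion (fun s _ => Set.finite_range s)
    obtain ⟨N, hN⟩ := this.bddAbove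
    exact ⟨N, fun s hs i => hN (Set.mem_biUnion hs ⟨i, rfl⟩)⟩
  have hi0 : 0 < k := by omega
  have hi1 : 1 < k := by omega
  have hi2 : 2 < k := by omega
  -- choose ε
  obtain ⟨ε, hεirr, hε0, hε1⟩ : ∃ ε : ℝ, Irrational ε ∧ 0 < ε ∧ ε < 1 / (6 * (N + 2)) := by
    obtain ⟨r, hr, h1, h2⟩ := exists_irrational_btwn (show (0 : ℝ) < 1 / (6 * (N + 2)) by positivity)
    exact ⟨r, hr, h1, h2⟩
  have hεN : ε * (6 * (N + 2)) < 1 := by
    rw [lt_div_iff₀ (by positivity)] at hε1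
    exact hε1
  have hεN' : ε * (6 * N) ≤ 1 := by nlinarith
  have hN0 : (0 : ℝ) ≤ N := by positivity
  have hε8 : ε < 1 / 8 := by nlinarith
  -- choose δ
  obtain ⟨δ, hδ0, hδ1, hδ⟩ : ∃ δ : ℝ, 0 < δ ∧ δ ≤ 1 / 2 ∧
      ∀ s ∈ F, ∀ i, δ ≤ nd ((s i : ℝ) * ((1 / 2 - ε) / (s ⟨0, hi0⟩ : ℝ))) := by
    have hfin : ((fun p : (Fin k → ℕ) × Fin k =>
        nd ((p.1 p.2 : ℝ) * ((1 / 2 - ε) / (p.1 ⟨0, hi0⟩ : ℝ)))) '' (F ×ˢ Set.univ)).Finite :=
      (hFfin.prod Set.finite_univ).image _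
    set S := insert (1 / 2 : ℝ) ((fun p : (Fin k → ℕ) × Fin k =>
        nd ((p.1 p.2 : ℝ) * ((1 / 2 - ε) / (p.1 ⟨0, hi0⟩ : ℝ)))) '' (F ×ˢ Set.univ)) with hS
    have hSfin : S.Finite := hfin.insert _
    have hSne : S.Nonempty := ⟨1 / 2, Set.mem_insert _ _⟩
    obtain ⟨m, hmS, hm⟩ := Set.exists_min_image S id hSfin hSne
    refine ⟨m, ?_, hm _ (Set.mem_insert _ _), ?_⟩
    · rcases hmS with h | ⟨p, ⟨hp, _⟩, h⟩
      · rw [h]; norm_num
      · rw [← h]
        apply nd_pos_of_irrational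
        exact irr_time ε hεirr _ _ ((hFs _ hp).1 _) ((hFs _ hp).1 _)
    · intro s hs i
      exact hm _ (Set.mem_insert_of_mem _ ⟨(s, i), ⟨hs, Set.mem_univ _⟩, rfl⟩)
  -- the point
  set d : Fin k → ℝ := fun i => if i.1 = 0 then 1 / 2 - ε else if i.1 = 1 then 2 * ε else δ with hd
  have hdbox : d ∈ box k := by
    intro i
    simp only [hd]
    split_ifs
    · constructor <;> linarith
    · constructor <;> linarith
    · exact ⟨hδ0, hδ1⟩
  have hdF : d ∈ MLPS k := by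
    rw [hF]
    refine ⟨hdbox, fun s hs => ⟨hdbox, (1 / 2 - ε) / (s ⟨0, hi0⟩ : ℝ), fun i => ?_⟩⟩
    have hs0 := (hFs s hs).1
    simp only [hd]
    split_ifs with h h'
    · have : i = ⟨0, hi0⟩ := Fin.ext h
      subst this
      exact time_first ε _ (hs0 _) hε0 (by linarith)
    · exact time_second ε N _ _ (hs0 _) (hs0 _) (hN s hs _) (hN s hs _) hε0 hεN'
    · exact hδ s hs i
  -- contradiction
  obtain ⟨n, hn⟩ := exists_nat_gt (1 / δ)
  have hn0 : 0 < n := by
    have h1 : 0 < 1 / δ := by positivity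
    have h2 : (0 : ℝ) < n := h1.trans hn
    exact_mod_cast h2
  obtain ⟨j, hj0, hjn, hj⟩ := Real.exists_nat_abs_mul_sub_round_le (4 * ε) hn0
  obtain ⟨_, t, ht⟩ := hdF.2 (sp k (4 * j)) (sp_speed k _ (by omega))
  have h0 := ht ⟨0, hi0⟩
  have h1 := ht ⟨1, hi1⟩
  have h2 := ht ⟨2, hi2⟩
  simp only [hd, sp] at h0 h1 h2
  norm_num at h0 h1 h2
  have hft := forced_time ε t (by rw [one_mul]; norm_num; exact h0) h1 j
  push_cast at hft
  rw [hft] at h2
  have h3 : nd ((j : ℝ) * (4 * ε)) ≤ 1 / (n + 1) := hj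
  have h4 : (1 : ℝ) / (n + 1) < δ := by
    rw [div_lt_iff₀ (by positivity)]
    rw [div_lt_iff₀ hδ0] at hn
    nlinarith
  linarith

end Pool.Agent.Results.MP_b1d502_nt.NotFinitelyDetermined
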